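import Pool.Agent.H58.Pd3

set_option autoImplicit false

namespace Pool.Agent.Results.MP_050cc1_an.Rect

open Pool.Agent.H58.Nm

theorem result : ∃ Ω : Set (ℝ × ℝ), Convex ℝ Ω ∧ IsOpen Ω ∧ Bornology.IsBounded Ω ∧
    ((0 : ℝ), (0 : ℝ)) ∈ Ω ∧
    ∀ (z : ℝ × ℝ) (R : ℝ), 0 < R → ((0 : ℝ), (0 : ℝ)) ∈ disc z R → F3 (disc z R) < F3 Ω :=
  ⟨Rc, (convex_Ioo _ _).prod (convex_Ioo _ _), isOpen_Ioo.prod isOpen_Ioo,
    (Metric.isBounded_Ioo _ _).prod (Metric.isBounded_Ioo _ _), ⟨by norm_num, by norm_num⟩,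
    fun z _ hR _ => by linarith [F3_disc z hR, F3_Rc]⟩

end Pool.Agent.Results.MP_050cc1_an.Rect
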